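import Pool.Agent.TH948.BD.Defs
import Pool.Agent.TH965.Copy

set_option autoImplicit false
set_option linter.unusedSectionVars false

/-!
# Counting the permutations that map a graph into a graph of bounded degree
-/

namespace Pool.Agent.TH757.BD

open Finset
open scoped Classical

variable {n : ℕ} (F : SimpleGraph (Fin n))

/-- the root of the component of `w` -/
noncomputable def rt (w : Fin n) : Fin n := Quot.out (F.connectedComponentMk w)

lemma mk_rt (w : Fin n) : F.connectedComponentMk (rt F w) = F.connectedComponentMk w :=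
  Quot.out_eq _

lemma reach_rt (w : Fin n) : F.Reachable w (rt F w) :=
  (SimpleGraph.ConnectedComponent.exact (mk_rt F w)).symm

lemma rt_rt (w : Fin n) : rt F (rt F w) = rt F w := by
  unfold rt
  rw [show F.connectedComponentMk (Quot.out (F.connectedComponentMk w)) =
    F.connectedComponentMk w from Quot.out_eq _]

lemma exists_par (w : Fin n) (hw : rt F w ≠ w) :
    ∃ u, F.Adj u w ∧ rt F u = rt F w ∧ F.dist u (rt F w) < F.dist w (rt F w) := by
  obtain ⟨p, hp⟩ := (reach_rt F w).exists_walk_length_eq_dist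
  revert hp
  generalize hr : rt F w = r at p
  intro hp
  cases p with
  | nil => exact absurd hr hw
  | @cons _ u _ h q =>
    refine ⟨u, h.symm, ?_, ?_⟩
    · rw [← hr]
      unfold rt
      rw [SimpleGraph.ConnectedComponent.connectedComponentMk_eq_of_adj h]
    · rw [← hp, SimpleGraph.Walk.length_cons]
      exact Nat.lt_succ_of_le (SimpleGraph.dist_le q)

/-- the vertices that are not roots -/
noncomputable def Wn : Finset (Fin n) := univ.filter (fun w => rt F w ≠ w)

/-- the roots of the components with at least two vertices -/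
noncomputable def Rn : Finset (Fin n) := (Wn F).image (rt F)

lemma card_Wn : (Wn F).card = n - Nat.card F.ConnectedComponent := by
  have h1 : (univ.filter (fun w => rt F w = w)).card = Nat.card F.ConnectedComponent := by
    rw [Nat.card_eq_fintype_card, ← Finset.card_univ]
    apply Finset.card_bij (fun w _ => F.connectedComponentMk w)
    · intro w _; exact mem_univ _
    · intro w hw w' hw' h
      rw [mem_filter] at hw hw'
      rw [← hw.2, ← hw'.2]
      unfold rt
      rw [h]
    · intro c _
      refine ⟨Quot.out c, ?_, Quot.out_eq _⟩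
      rw [mem_filter]
      refine ⟨mem_univ _, ?_⟩
      unfold rt
      rw [show F.connectedComponentMk (Quot.out c) = c from Quot.out_eq _]
  have h2 := Finset.card_filter_add_card_filter_not (s := (univ : Finset (Fin n)))
    (fun w => rt F w = w)
  rw [h1, Finset.card_univ, Fintype.card_fin] at h2
  unfold Wn
  have h3 : (univ.filter (fun w => rt F w ≠ w)) = univ.filter (fun w => ¬ rt F w = w) := rfl
  rw [h3]
  omega

lemma disj : Disjoint (Rn F) (Wn F) := by
  rw [Finset.disjoint_left]
  intro x hx hx'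
  obtain ⟨w, _, rfl⟩ := mem_image.1 hx
  exact (mem_filter.1 hx').2 (rt_rt F w)

lemma card_Rn : (Rn F).card ≤ (Wn F).card := card_image_le

lemma card_sum : (Rn F).card + (Wn F).card ≤ n := by
  rw [← Finset.card_union_of_disjoint (disj F)]
  exact (Finset.card_le_univ _).trans (by rw [Fintype.card_fin])

/-- a chosen neighbour closer to the root -/
noncomputable def par (w : Fin n) : Fin n :=
  if h : rt F w ≠ w then (exists_par F w h).choose else w

lemma par_spec {w : Fin n} (h : rt F w ≠ w) :
    F.Adj (par F w) w ∧ rt F (par F w) = rt F w ∧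
      F.dist (par F w) (rt F w) < F.dist w (rt F w) := by
  unfold par
  rw [dif_pos h]
  exact (exists_par F w h).choose_spec

variable (H : SimpleGraph (Fin n))

/-- the permutations mapping `F` into `H` -/
abbrev PP : Type := {τ : Equiv.Perm (Fin n) // ∀ a b, F.Adj a b → H.Adj (τ a) (τ b)}

variable {Δ : ℕ}

/-- the code of a permutation -/
noncomputable def code (idx : ∀ x : Fin n, {y // H.Adj x y} ↪ Fin Δ) (τ : PP F H) :
    ({x // x ∈ Rn F} ↪ Fin n) × ({x // x ∈ Wn F} → Fin Δ) :=
  ⟨⟨fun x => τ.1 x.1, fun _ _ h => Subtype.ext (τ.1.injective h)⟩,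
    fun w => idx (τ.1 (par F w.1)) ⟨τ.1 w.1, τ.2 _ _ (par_spec F (mem_filter.1 w.2).2).1⟩⟩

lemma idx_inj (idx : ∀ x : Fin n, {y // H.Adj x y} ↪ Fin Δ) {x x' y y' : Fin n} (hx : x = x')
    (h : H.Adj x y) (h' : H.Adj x' y') (he : idx x ⟨y, h⟩ = idx x' ⟨y', h'⟩) : y = y' := by
  subst hx
  have := (idx x).injective he
  exact congrArg Subtype.val this

lemma code_det (idx : ∀ x : Fin n, {y // H.Adj x y} ↪ Fin Δ) (τ τ' : PP F H)
    (h : code F H idx τ = code F H idx τ') :
    ∀ (d : ℕ) (x : Fin n), F.dist x (rt F x) < d → x ∈ Rn F ∪ Wn F → τ.1 x = τ'.1 x := by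
  intro d
  induction d with
  | zero => intro x hx; exact absurd hx (Nat.not_lt_zero _)
  | succ d ih =>
    intro x hx hm
    rcases mem_union.1 hm with hm | hm
    · have h1 := congrArg (fun c => c.1 ⟨x, hm⟩) h
      exact h1
    · have hx2 := (mem_filter.1 hm).2
      obtain ⟨p1, p2, p3⟩ := par_spec F hx2
      have h1 : τ.1 (par F x) = τ'.1 (par F x) := by
        apply ih
        · rw [p2]; omega
        · by_cases hr : rt F (par F x) = par F x
          · rw [← hr, p2]
            exact mem_union_left _ (mem_image_of_mem _ hm)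
          · exact mem_union_right _ (mem_filter.2 ⟨mem_univ _, hr⟩)
      have h2 := congrArg (fun c => c.2 ⟨x, hm⟩) h
      exact idx_inj H idx h1 _ _ h2

lemma card_fibre (idx : ∀ x : Fin n, {y // H.Adj x y} ↪ Fin Δ)
    (c : ({x // x ∈ Rn F} ↪ Fin n) × ({x // x ∈ Wn F} → Fin Δ)) :
    ((univ : Finset (PP F H)).filter (fun τ => code F H idx τ = c)).card ≤
      (n - ((Rn F).card + (Wn F).card)).factorial := by
  by_cases hne : ((univ : Finset (PP F H)).filter (fun τ => code F H idx τ = c)).Nonempty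
  swap
  · rw [Finset.not_nonempty_iff_eq_empty] at hne
    rw [hne, Finset.card_empty]
    exact Nat.zero_le _
  obtain ⟨τ0, h0⟩ := hne
  rw [mem_filter] at h0
  have h1 := Pool.Agent.TH965.Copy.natCard_perm_prescribed (V := {x // x ∈ Rn F ∪ Wn F})
    (α := Fin n) (fun x => x.1) (fun x => τ0.1 x.1) Subtype.val_injective
  rw [Nat.card_eq_fintype_card (α := Fin n), Fintype.card_fin,
    Nat.card_eq_fintype_card (α := {x // x ∈ Rn F ∪ Wn F}), Fintype.card_coe,
    Finset.card_union_of_disjoint (disj F)] at h1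
  refine le_trans ?_ h1
  rw [← Fintype.card_subtype, ← Nat.card_eq_fintype_card]
  apply Nat.card_le_card_of_injective
    (fun τ : {τ : PP F H // code F H idx τ = c} =>
      (⟨τ.1.1, fun x => code_det F H idx τ.1 τ0 (τ.2.trans h0.2.symm) _ x.1
        (Nat.lt_succ_self _) x.2⟩ :
        {σ : Equiv.Perm (Fin n) // ∀ x : {x // x ∈ Rn F ∪ Wn F}, σ x.1 = τ0.1 x.1}))
  intro τ τ' h
  have h' : τ.1.1 = τ'.1.1 := Subtype.mk.inj h
  exact Subtype.ext (Subtype.ext h')

lemma card_nat (hH : ∀ v, H.degree v ≤ Δ) :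
    Fintype.card (PP F H) ≤ (n - ((Rn F).card + (Wn F).card)).factorial *
      (n.descFactorial (Rn F).card * Δ ^ (Wn F).card) := by
  have hidx : ∀ x : Fin n, Nonempty ({y // H.Adj x y} ↪ Fin Δ) := by
    intro x
    apply Function.Embedding.nonempty_of_card_le
    rw [Fintype.card_fin]
    refine le_trans (le_of_eq ?_) (hH x)
    rw [← SimpleGraph.card_neighborSet_eq_degree]
    exact Fintype.card_congr (Equiv.refl _)
  have idx : ∀ x : Fin n, {y // H.Adj x y} ↪ Fin Δ := fun x => Classical.choice (hidx x)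
  rw [← Finset.card_univ]
  refine (Finset.card_le_mul_card_image (f := code F H idx) univ
    (n - ((Rn F).card + (Wn F).card)).factorial ?_).trans ?_
  · intro c _
    exact card_fibre F H idx c
  · apply Nat.mul_le_mul_left
    refine (Finset.card_le_univ _).trans (le_of_eq ?_)
    rw [Fintype.card_prod, Fintype.card_embedding_eq, Fintype.card_fun, Fintype.card_fin,
      Fintype.card_fin, Fintype.card_coe, Fintype.card_coe]

lemma real_bound {n Δ c m N : ℕ} (hn : 0 < n) (hcm : c ≤ m) (hs : c + m ≤ n)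
    (hN : N ≤ (n - (c + m)).factorial * (n.descFactorial c * Δ ^ m)) :
    (N : ℝ) ≤ (n.factorial : ℝ) * (9 * Δ / n) ^ m := by
  have h1 : (n - c).factorial * n.descFactorial c = n.factorial :=
    Nat.factorial_mul_descFactorial (by omega)
  have h2 : (n - c - m).factorial * (n - c).descFactorial m = (n - c).factorial :=
    Nat.factorial_mul_descFactorial (by omega)
  have h3 := Pool.Agent.TH965.Copy.pow_le_exp_mul_descFactorial (n - c) m (by omega)
  have hD : (0 : ℝ) ≤ ((n - c).descFactorial m : ℝ) := Nat.cast_nonneg _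
  have hnR : (0 : ℝ) < n := by exact_mod_cast hn
  have h4 : ((n : ℝ) / 2) ^ m ≤ ((n - c : ℕ) : ℝ) ^ m := by
    apply pow_le_pow_left₀ (by positivity)
    rw [Nat.cast_sub (by omega)]
    have : (2 : ℝ) * c ≤ n := by exact_mod_cast (by omega : 2 * c ≤ n)
    linarith
  have h5 : Real.exp m ≤ ((9 : ℝ) / 2) ^ m := by
    rw [← mul_one (m : ℝ), Real.exp_nat_mul]
    apply pow_le_pow_left₀ (Real.exp_pos _).le
    have := Real.exp_one_lt_d9
    linarith
  -- `n ^ m ≤ 9 ^ m * descFactorial`
  have h6 : (n : ℝ) ^ m ≤ 9 ^ m * ((n - c).descFactorial m : ℝ) := by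
    have h7 : ((n : ℝ) / 2) ^ m ≤ ((9 : ℝ) / 2) ^ m * ((n - c).descFactorial m : ℝ) :=
      h4.trans (h3.trans (mul_le_mul_of_nonneg_right h5 hD))
    rw [div_pow, div_pow, div_mul_eq_mul_div, div_le_div_iff_of_pos_right (by positivity)] at h7
    exact h7
  have h8 : (N : ℝ) ≤ ((n - (c + m)).factorial : ℝ) * ((n.descFactorial c : ℝ) * (Δ : ℝ) ^ m) := by
    exact_mod_cast hN
  have e1 : n - (c + m) = n - c - m := by omega
  rw [e1] at h8
  have h9 : (n.factorial : ℝ) = ((n - c - m).factorial : ℝ) * ((n - c).descFactorial m : ℝ) *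
      (n.descFactorial c : ℝ) := by
    rw [← h1, ← h2]; push_cast; ring
  refine h8.trans ?_
  rw [h9, div_pow, mul_pow, mul_div_assoc', le_div_iff₀ (by positivity)]
  have hA : (0 : ℝ) ≤ ((n - c - m).factorial : ℝ) * ((n.descFactorial c : ℝ) * (Δ : ℝ) ^ m) := by
    positivity
  calc ((n - c - m).factorial : ℝ) * ((n.descFactorial c : ℝ) * (Δ : ℝ) ^ m) * (n : ℝ) ^ m
      ≤ ((n - c - m).factorial : ℝ) * ((n.descFactorial c : ℝ) * (Δ : ℝ) ^ m) *
        (9 ^ m * ((n - c).descFactorial m : ℝ)) := mul_le_mul_of_nonneg_left h6 hA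
    _ = _ := by ring

end Pool.Agent.TH757.BD

namespace Pool.Agent.TH948.BD

open Finset
open scoped Classical
open Pool.Agent.TH965.Spread Pool.Agent.TH948.KK

theorem card_hom_le {n Δ : ℕ} (F H : SimpleGraph (Fin n)) (hH : ∀ v, H.degree v ≤ Δ) :
    (Nat.card {τ : Equiv.Perm (Fin n) // ∀ a b, F.Adj a b → H.Adj (τ a) (τ b)} : ℝ) ≤
      (n.factorial : ℝ) * (9 * Δ / n) ^ (n - Nat.card F.ConnectedComponent) := by
  rw [← Pool.Agent.TH757.BD.card_Wn F]
  rcases Nat.eq_zero_or_pos n with hn | hn
  · have hW : (Pool.Agent.TH757.BD.Wn F).card = 0 := by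
      have := Finset.card_le_univ (Pool.Agent.TH757.BD.Wn F)
      rw [Fintype.card_fin] at this
      omega
    rw [hW, pow_zero, mul_one]
    have h1 : Nat.card {τ : Equiv.Perm (Fin n) // ∀ a b, F.Adj a b → H.Adj (τ a) (τ b)} ≤
        Nat.card (Equiv.Perm (Fin n)) :=
      Nat.card_le_card_of_injective (fun τ => τ.1) Subtype.val_injective
    rw [Nat.card_eq_fintype_card (α := Equiv.Perm (Fin n)), Fintype.card_perm,
      Fintype.card_fin] at h1
    exact_mod_cast h1
  · apply Pool.Agent.TH757.BD.real_bound hn (Pool.Agent.TH757.BD.card_Rn F)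
      (Pool.Agent.TH757.BD.card_sum F)
    rw [Nat.card_eq_fintype_card]
    exact Pool.Agent.TH757.BD.card_nat F H hH

end Pool.Agent.TH948.BD
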